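import Mathlib
import Pool.Agent.Q4.Liou
import Pool.Agent.Q4.LiouMat

/-!
# A matrix none of whose scalar shifts is a Liouville matrix

Take a matrix `A` whose entries together with `1` are linearly independent algebraic numbers. If
`(A - λ) y` is close to the integer vector `x` then `λ` can be eliminated from two rows, and the result is a
linear form in the entries of `A` and `1` with integer coefficients of size at most a constant times `‖y‖ ^ 2`.
It is bounded below by Liouville's inequality.
-/

set_option autoImplicit false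

namespace Pool.Agent.Results.MP_14d1e0_nt.NoLiouvilleShift

open Finset Matrix Pool.Agent.Q4.LiouMat Pool.Agent.Q4.Liou

/-- the place of the entry `(i, j)` in the list of numbers -/
def idx {n : ℕ} (i j : Fin n) : Fin (n * n + 1) := Fin.succ (finProdFinEquiv (i, j))

lemma idx_ne_zero {n : ℕ} (i j : Fin n) : idx i j ≠ 0 := Fin.succ_ne_zero _

lemma idx_inj {n : ℕ} {i j i' j' : Fin n} (h : idx i j = idx i' j') : i = i' ∧ j = j' := by
  have h1 := finProdFinEquiv.injective (Fin.succ_injective _ h)
  exact ⟨congrArg Prod.fst h1, congrArg Prod.snd h1⟩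

/-- a sum over the entries of the matrix -/
lemma sum_split {n : ℕ} (f : Fin (n * n + 1) → ℝ) :
    ∑ k, f k = f 0 + ∑ i : Fin n, ∑ j : Fin n, f (idx i j) := by
  rw [Fin.sum_univ_succ]
  congr 1
  rw [← (finProdFinEquiv (m := n) (n := n)).sum_comp (fun k => f k.succ), Fintype.sum_prod_type]
  rfl

/-- For every `n ≥ 2` there is a real `n × n` matrix `A` such that no real `t` makes `A - t I` a Liouville
matrix. -/
theorem result (n : ℕ) (hn : 2 ≤ n) :
    ∃ A : Matrix (Fin n) (Fin n) ℝ, ∀ t : ℝ, ¬ IsLiouvilleMatrix (A - t • (1 : Matrix (Fin n) (Fin n) ℝ)) := by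
  classical
  obtain ⟨Y, c, hY0, hc, hY⟩ := exists_measure (n * n)
  set A : Matrix (Fin n) (Fin n) ℝ := fun i j => Y (idx i j) with hA
  refine ⟨A, fun t => ?_⟩
  -- a bound for the entries
  set S : ℝ := 1 + ∑ i : Fin n, ∑ j : Fin n, |A i j| with hS
  have hS1 : 1 ≤ S := by
    have : 0 ≤ ∑ i : Fin n, ∑ j : Fin n, |A i j| :=
      Finset.sum_nonneg fun i _ => Finset.sum_nonneg fun j _ => abs_nonneg _
    linarith
  have hSrow : ∀ i, ∑ j : Fin n, |A i j| ≤ S := by
    intro i
    have : ∑ j : Fin n, |A i j| ≤ ∑ i : Fin n, ∑ j : Fin n, |A i j| :=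
      Finset.single_le_sum (f := fun i : Fin n => ∑ j : Fin n, |A i j|)
        (fun i _ => Finset.sum_nonneg fun j _ => abs_nonneg _) (Finset.mem_univ i)
    linarith
  set E : ℕ := 2 * (n * n) + 2 with hE
  set c' : ℝ := min (c / (2 * (4 * S) ^ (n * n))) (1 / 2) with hc'
  have hc'0 : 0 < c' := by
    rw [hc']
    apply lt_min
    · positivity
    · norm_num
  apply not_liouville_of_bound _ c' hc'0 E
  intro x y hy
  set Q : ℝ := ‖y‖ with hQ
  have hQ1 : 1 ≤ Q := one_le_norm hy
  have hyQ : ∀ l, |(y l : ℝ)| ≤ Q := by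
    intro l
    have := norm_le_pi_norm y l
    rwa [Int.norm_eq_abs] at this
  set r : Fin n → ℝ := (A - t • (1 : Matrix (Fin n) (Fin n) ℝ)) *ᵥ (fun j => (y j : ℝ)) -
    (fun i => (x i : ℝ)) with hr
  set R : ℝ := ‖r‖ with hR
  have hR0 : 0 ≤ R := norm_nonneg _
  have hrR : ∀ i, |r i| ≤ R := by
    intro i
    have := norm_le_pi_norm r i
    rwa [Real.norm_eq_abs] at this
  have hri : ∀ i, r i = ∑ l, A i l * y l - t * y i - x i := by
    intro i
    rw [hr]
    simp only [Pi.sub_apply, Matrix.sub_mulVec, Matrix.smul_mulVec, Matrix.one_mulVec,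
      Pi.smul_apply, smul_eq_mul]
    rfl
  -- two rows
  obtain ⟨i, hi⟩ := Function.ne_iff.1 hy
  have hi0 : y i ≠ 0 := hi
  obtain ⟨j, hij⟩ : ∃ j : Fin n, j ≠ i := by
    have : Nontrivial (Fin n) := Fin.nontrivial_iff_two_le.2 hn
    exact exists_ne i
  -- the coefficients of the linear form
  set a : Fin (n * n + 1) → ℤ := fun k =>
    if k = 0 then -(x i * y j - x j * y i) else
      (∑ l : Fin n, if k = idx i l then y l * y j else 0) -
        (∑ l : Fin n, if k = idx j l then y l * y i else 0) with ha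
  have ha0 : a 0 = -(x i * y j - x j * y i) := by rw [ha]; simp
  have ha1 : ∀ p q : Fin n, a (idx p q) =
      (if p = i then y q * y j else 0) - (if p = j then y q * y i else 0) := by
    intro p q
    rw [ha]
    simp only [idx_ne_zero, if_false]
    congr 1
    · by_cases hp : p = i
      · rw [if_pos hp, hp, Finset.sum_eq_single q]
        · simp
        · intro b _ hb
          rw [if_neg]
          intro h
          exact hb (idx_inj h).2.symm
        · simp
      · rw [if_neg hp]
        apply Finset.sum_eq_zero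
        intro l _
        rw [if_neg]
        intro h
        exact hp (idx_inj h).1
    · by_cases hp : p = j
      · rw [if_pos hp, hp, Finset.sum_eq_single q]
        · simp
        · intro b _ hb
          rw [if_neg]
          intro h
          exact hb (idx_inj h).2.symm
        · simp
      · rw [if_neg hp]
        apply Finset.sum_eq_zero
        intro l _
        rw [if_neg]
        intro h
        exact hp (idx_inj h).1
  have hane : a ≠ 0 := by
    intro h0
    have h1 := congrFun h0 (idx j i)
    rw [ha1, if_neg hij, if_pos rfl] at h1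
    have h2 : y i * y i = 0 := by
      simp only [zero_sub, Pi.zero_apply, neg_eq_zero] at h1
      exact h1
    exact hi0 (by simpa using h2)
  -- the value of the linear form
  have hval : ∑ k, (a k : ℝ) * Y k = y j * r i - y i * r j := by
    rw [sum_split, ha0, hY0, hri, hri]
    have e1 : ∑ p : Fin n, ∑ q : Fin n, (a (idx p q) : ℝ) * Y (idx p q) =
        y j * ∑ l, A i l * y l - y i * ∑ l, A j l * y l := by
      have e2 : ∀ p : Fin n, ∑ q : Fin n, (a (idx p q) : ℝ) * Y (idx p q) =
          (if p = i then y j * ∑ l, A i l * y l else 0) - (if p = j then y i * ∑ l, A j l * y l else 0) := by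
        intro p
        simp only [ha1]
        by_cases hpi : p = i
        · have hpj : p ≠ j := by rw [hpi]; exact hij.symm
          simp only [if_pos hpi, if_neg hpj, sub_zero]
          rw [Finset.mul_sum]
          apply Finset.sum_congr rfl
          intro q _
          rw [hpi, hA]
          push_cast
          ring
        · by_cases hpj : p = j
          · simp only [if_neg hpi, if_pos hpj, zero_sub]
            rw [Finset.mul_sum, ← Finset.sum_neg_distrib]
            apply Finset.sum_congr rfl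
            intro q _
            rw [hpj, hA]
            push_cast
            ring
          · simp [hpi, hpj]
      simp only [e2]
      rw [Finset.sum_sub_distrib]
      simp
    rw [e1]
    push_cast
    ring
  by_cases hRbig : 1 ≤ 2 * R
  · -- `R` is large: nothing to prove
    have h1 : c' ≤ 1 / 2 := min_le_right _ _
    have h2 : (1 : ℝ) ≤ Q ^ E := one_le_pow₀ hQ1
    nlinarith
  push Not at hRbig
  -- the value is small, hence the constant coefficient is bounded
  have hval_le : |∑ k, (a k : ℝ) * Y k| ≤ 2 * Q * R := by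
    rw [hval]
    refine (abs_sub _ _).trans ?_
    rw [abs_mul, abs_mul]
    have h1 : |(y j : ℝ)| * |r i| ≤ Q * R := mul_le_mul (hyQ j) (hrR i) (abs_nonneg _) (by linarith)
    have h2 : |(y i : ℝ)| * |r j| ≤ Q * R := mul_le_mul (hyQ i) (hrR j) (abs_nonneg _) (by linarith)
    linarith
  have hA1 : ∀ p q : Fin n, |(a (idx p q) : ℝ)| ≤ 4 * S * Q ^ 2 := by
    intro p q
    rw [ha1]
    have h1 : |(((if p = i then y q * y j else 0) : ℤ) : ℝ)| ≤ Q ^ 2 := by
      split_ifs
      · push_cast
        rw [abs_mul, sq]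
        exact mul_le_mul (hyQ _) (hyQ _) (abs_nonneg _) (by linarith)
      · simp; positivity
    have h2 : |(((if p = j then y q * y i else 0) : ℤ) : ℝ)| ≤ Q ^ 2 := by
      split_ifs
      · push_cast
        rw [abs_mul, sq]
        exact mul_le_mul (hyQ _) (hyQ _) (abs_nonneg _) (by linarith)
      · simp; positivity
    have h3 := abs_sub (((if p = i then y q * y j else 0) : ℤ) : ℝ) (((if p = j then y q * y i else 0) : ℤ) : ℝ)
    rw [Int.cast_sub]
    have : 0 < Q ^ 2 := by positivity
    nlinarith
  have hrow : ∀ p : Fin n, |∑ l, A p l * (y l : ℝ)| ≤ S * Q := by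
    intro p
    refine (Finset.abs_sum_le_sum_abs _ _).trans ?_
    calc ∑ l, |A p l * (y l : ℝ)| ≤ ∑ l, |A p l| * Q := by
          apply Finset.sum_le_sum
          intro l _
          rw [abs_mul]
          exact mul_le_mul_of_nonneg_left (hyQ l) (abs_nonneg _)
      _ = (∑ l, |A p l|) * Q := by rw [Finset.sum_mul]
      _ ≤ S * Q := mul_le_mul_of_nonneg_right (hSrow p) (by linarith)
  have hA0 : |(a 0 : ℝ)| ≤ 4 * S * Q ^ 2 := by
    have e : (a 0 : ℝ) = (y j * r i - y i * r j) - (y j * ∑ l, A i l * y l - y i * ∑ l, A j l * y l) := by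
      rw [ha0, hri, hri]
      push_cast
      ring
    rw [e]
    have h1 : |(y j : ℝ) * r i - y i * r j| ≤ 2 * Q * R := by rw [← hval]; exact hval_le
    have h2 : |(y j : ℝ) * ∑ l, A i l * y l - y i * ∑ l, A j l * y l| ≤ 2 * S * Q ^ 2 := by
      refine (abs_sub _ _).trans ?_
      rw [abs_mul, abs_mul]
      have h3 : |(y j : ℝ)| * |∑ l, A i l * (y l : ℝ)| ≤ Q * (S * Q) :=
        mul_le_mul (hyQ j) (hrow i) (abs_nonneg _) (by linarith)
      have h4 : |(y i : ℝ)| * |∑ l, A j l * (y l : ℝ)| ≤ Q * (S * Q) :=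
        mul_le_mul (hyQ i) (hrow j) (abs_nonneg _) (by linarith)
      nlinarith
    refine (abs_sub _ _).trans ?_
    have h5 : 2 * Q * R ≤ Q := by nlinarith
    have h6 : Q ≤ Q ^ 2 := by nlinarith
    have h7 : Q ^ 2 ≤ S * Q ^ 2 := by nlinarith [sq_nonneg Q]
    nlinarith
  have hAll : ∀ k, |(a k : ℝ)| ≤ 4 * S * Q ^ 2 := by
    intro k
    refine Fin.cases ?_ (fun k' => ?_) k
    · exact hA0
    · have e : idx (finProdFinEquiv.symm k').1 (finProdFinEquiv.symm k').2 = k'.succ := by
        unfold idx
        rw [Prod.mk.eta, Equiv.apply_symm_apply]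
      rw [← e]
      exact hA1 _ _
  have hH1 : (1 : ℝ) ≤ 4 * S * Q ^ 2 := by
    have : 1 ≤ Q ^ 2 := by nlinarith
    nlinarith
  have h1 := hY a hane (4 * S * Q ^ 2) hH1 hAll
  have h2 : c ≤ (4 * S * Q ^ 2) ^ (n * n) * (2 * Q * R) :=
    h1.trans (mul_le_mul_of_nonneg_left hval_le (by positivity))
  have h3 : (4 * S * Q ^ 2) ^ (n * n) * (2 * Q * R) = 2 * (4 * S) ^ (n * n) * (Q ^ (2 * (n * n) + 1) * R) := by
    rw [mul_pow, ← pow_mul, pow_succ]
    ring
  rw [h3] at h2
  have h4 : Q ^ (2 * (n * n) + 1) ≤ Q ^ E := pow_le_pow_right₀ hQ1 (by omega)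
  have h5 : c' ≤ c / (2 * (4 * S) ^ (n * n)) := min_le_left _ _
  have h6 : 0 < 2 * (4 * S) ^ (n * n) := by positivity
  have h7 : c / (2 * (4 * S) ^ (n * n)) ≤ Q ^ (2 * (n * n) + 1) * R := by
    rw [div_le_iff₀ h6]
    linarith
  calc c' ≤ Q ^ (2 * (n * n) + 1) * R := h5.trans h7
    _ ≤ Q ^ E * R := mul_le_mul_of_nonneg_right h4 hR0

end Pool.Agent.Results.MP_14d1e0_nt.NoLiouvilleShift
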